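import Pool.Agent.Y914.Haus.Main

set_option autoImplicit false

/-!
Hausdorff approximation on `[-1, 1]` (parameter `1`) by real polynomials of degree at most `n`,
and the class `K` of continuous convex functions from `[-1, 1]` to `[0, 1]`.
For `1 ≤ n ≤ 25` the inequality `E n f ≤ E n |x|` holds for every `f` in `K` if and only if
`n = 1`. So the function `|x|` is not extremal for any degree `n` between `2` and `25`.
The counterexamples are the functions `F δ x = max 0 (1 + (x - 1) / δ)` with small `δ`.
-/

namespace Pool.Agent.Results.MP_170294_an.NotExtremal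

open Pool.Agent.Y914.Haus

theorem result :
    ∀ n : ℕ, 1 ≤ n → n ≤ 25 →
      ((∀ f ∈ K, E n f ≤ E n (fun x => |x|)) ↔ n = 1) := by
  intro n h1 h25
  constructor
  · intro h
    by_contra hn
    obtain ⟨f, hf, hlt⟩ := degree_two_to_25 n (by omega) h25
    exact absurd (h f hf) (not_le.2 hlt)
  · rintro rfl f hf
    exact degree_one f hf

end Pool.Agent.Results.MP_170294_an.NotExtremal
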